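import Mathlib
import Pool.Agent.TH855.Occ

set_option autoImplicit false

/-!
# Local occupancy for weighted graphs without large cliques
-/

namespace Pool.Agent.R143.JM

open Finset Classical Pool.Agent.TH855

set_option linter.unusedSectionVars false

variable {V : Type} [Fintype V] {G : SimpleGraph V}

/-- Jensen's inequality for the scaled partition function -/
theorem jensen (N : Finset V) (l : V → ℝ) (hl : ∀ u, 0 ≤ l u) (y : ℝ) :
    Zf G N l * Real.exp (y * (Mf G N l / Zf G N l)) ≤ Zf G N (fun u => Real.exp y * l u) := by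
  have hZ := zf_pos (G := G) N l hl
  obtain ⟨m, hm⟩ : ∃ m : ℝ, m = Mf G N l / Zf G N l := ⟨_, rfl⟩
  rw [← hm]
  have hmZ : m * Zf G N l = Mf G N l := by rw [hm]; field_simp
  have h1 : ∀ A ∈ Ind G N, Real.exp (y * m) * ((1 - y * m) * (∏ u ∈ A, l u) +
      y * ((A.card : ℝ) * ∏ u ∈ A, l u)) ≤ ∏ u ∈ A, (Real.exp y * l u) := by
    intro A _
    have h2 : ∏ u ∈ A, (Real.exp y * l u) = Real.exp (y * A.card) * ∏ u ∈ A, l u := by
      rw [Finset.prod_mul_distrib, Finset.prod_const, ← Real.exp_nat_mul, mul_comm (A.card : ℝ)]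
    have h3 : 0 ≤ ∏ u ∈ A, l u := Finset.prod_nonneg (fun u _ => hl u)
    have h4 : Real.exp (y * m) * (1 + y * (A.card - m)) ≤ Real.exp (y * A.card) := by
      have h5 := Real.add_one_le_exp (y * ((A.card : ℝ) - m))
      have h6 : Real.exp (y * A.card) = Real.exp (y * m) * Real.exp (y * ((A.card : ℝ) - m)) := by
        rw [← Real.exp_add]; congr 1; ring
      rw [h6]
      exact mul_le_mul_of_nonneg_left (by linarith) (Real.exp_pos _).le
    rw [h2]
    have h7 := mul_le_mul_of_nonneg_right h4 h3
    refine le_trans (le_of_eq ?_) h7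
    ring
  have h8 := Finset.sum_le_sum h1
  rw [← Finset.mul_sum, Finset.sum_add_distrib, ← Finset.mul_sum, ← Finset.mul_sum] at h8
  have h9 : (1 - y * m) * Zf G N l + y * Mf G N l = Zf G N l := by
    rw [← hmZ]; ring
  have h10 : Real.exp (y * m) * ((1 - y * m) * Zf G N l + y * Mf G N l) ≤
      Zf G N (fun u => Real.exp y * l u) := h8
  rw [h9] at h10
  linarith

theorem zf_mono {N N' : Finset V} (h : N' ⊆ N) (l : V → ℝ) (hl : ∀ u, 0 ≤ l u) :
    Zf G N' l ≤ Zf G N l := by
  rw [Zf, Zf]
  refine Finset.sum_le_sum_of_subset_of_nonneg ?_ (fun A _ _ =>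
    Finset.prod_nonneg (fun u _ => hl u))
  intro A hA
  rw [mem_ind] at hA ⊢
  exact ⟨hA.1.trans h, hA.2⟩

theorem one_le_zf (N : Finset V) (l : V → ℝ) (hl : ∀ u, 0 ≤ l u) : 1 ≤ Zf G N l := by
  have h := zf_mono (G := G) (Finset.empty_subset N) l hl
  refine le_trans ?_ h
  rw [Zf]
  have : (∅ : Finset V) ∈ Ind G ∅ := by
    rw [mem_ind]; simp
  refine le_trans ?_ (Finset.single_le_sum (f := fun A => ∏ u ∈ A, l u)
    (fun A _ => Finset.prod_nonneg (fun u _ => hl u)) this)
  simp

/-- no clique of size `r` inside `N` -/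
def NoClique (G : SimpleGraph V) (N : Finset V) (r : ℕ) : Prop :=
  ∀ S : Finset V, S ⊆ N → ¬ G.IsNClique r S

/-- graphs without large cliques have large partition functions -/
theorem zf_lower (l : V → ℝ) (hl : ∀ u, 0 ≤ l u) (hl1 : ∀ u, l u ≤ 1) (y : ℝ) (hy : 1 ≤ y) :
    ∀ (r : ℕ) (N : Finset V), NoClique G N (r + 1) → y ^ r ≤ ∑ u ∈ N, l u →
      Real.exp (y / 8) ≤ Zf G N l := by
  intro r
  induction r with
  | zero =>
    intro N hN hy'
    have : N = ∅ := by
      by_contra hne
      obtain ⟨v, hv⟩ := Finset.nonempty_iff_ne_empty.2 hne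
      exact hN {v} (by simpa using hv) (by simp)
    rw [this] at hy'
    simp at hy'
    linarith
  | succ r ih =>
    intro N hN hyr
    by_cases hu : ∃ u ∈ N, y ^ r ≤ Dg G N l u
    · obtain ⟨u, huN, hu⟩ := hu
      rw [Dg] at hu
      refine le_trans (ih (N.filter (fun w => G.Adj u w)) ?_ hu)
        (zf_mono (Finset.filter_subset _ _) l hl)
      intro S hS hc
      have h1 : u ∉ S := by
        intro h
        have := (Finset.mem_filter.1 (hS h)).2
        exact G.loopless.irrefl u this
      refine hN (insert u S) ?_ (hc.insert ?_)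
      · intro w hw
        rw [Finset.mem_insert] at hw
        rcases hw with rfl | hw
        · exact huN
        · exact (Finset.mem_filter.1 (hS hw)).1
      · intro w hw
        exact (Finset.mem_filter.1 (hS hw)).2
    · push Not at hu
      obtain ⟨d, hd⟩ : ∃ d : ℝ, d = y ^ r := ⟨_, rfl⟩
      rw [← hd] at hu
      have hd1 : 1 ≤ d := by rw [hd]; exact one_le_pow₀ hy
      have hd0 : 0 < d := by linarith
      obtain ⟨Λ, hΛ⟩ : ∃ Λ : ℝ, Λ = ∑ u ∈ N, l u := ⟨_, rfl⟩
      rw [← hΛ] at hyr
      have hyd : y * d ≤ Λ := by rw [hd]; rw [pow_succ] at hyr; linarith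
      obtain ⟨s, hs⟩ : ∃ s : ℝ, s = 1 / (4 * d) := ⟨_, rfl⟩
      have hs0 : 0 < s := by rw [hs]; positivity
      have hsd : s * d = 1 / 4 := by rw [hs]; field_simp
      have hs4 : s ≤ 1 / 4 := by
        rw [← hsd]
        have : s * 1 ≤ s * d := mul_le_mul_of_nonneg_left hd1 hs0.le
        linarith
      -- the scaled weights
      have hm0 : ∀ u, 0 ≤ s * l u := fun u => mul_nonneg hs0.le (hl u)
      have hZs := zf_pos (G := G) N (fun u => s * l u) hm0
      have hlow := mf_lower (G := G) N (fun u => s * l u) hm0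
      have h2 : s * Λ / 2 ≤ ∑ u ∈ N, s * l u * (1 - s * l u - Dg G N (fun u => s * l u) u) := by
        have h3 : s * Λ / 2 = ∑ u ∈ N, s * l u * (1 / 2) := by
          rw [hΛ, ← Finset.sum_mul, ← Finset.mul_sum]; ring
        rw [h3]
        refine Finset.sum_le_sum (fun u huN => mul_le_mul_of_nonneg_left ?_ (hm0 u))
        have h4 : Dg G N (fun u => s * l u) u = s * Dg G N l u := by
          rw [Dg, Dg, Finset.mul_sum]
        rw [h4]
        have h5 : s * Dg G N l u ≤ s * d := mul_le_mul_of_nonneg_left (hu u huN).le hs0.le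
        have h6 : s * l u ≤ s * 1 := mul_le_mul_of_nonneg_left (hl1 u) hs0.le
        linarith
      have h7 : s * Λ / 2 ≤ Mf G N (fun u => s * l u) / Zf G N (fun u => s * l u) := by
        rw [le_div_iff₀ hZs]
        have := mul_le_mul_of_nonneg_left h2 hZs.le
        linarith
      have h8 : y / 8 ≤ s * Λ / 2 := by
        have h9 : s * (y * d) ≤ s * Λ := mul_le_mul_of_nonneg_left hyd hs0.le
        have h10 : s * (y * d) = y * (s * d) := by ring
        rw [h10, hsd] at h9
        linarith
      have hj := jensen (G := G) N (fun u => s * l u) hm0 (Real.log (1 / s))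
      have hinv : Real.exp (Real.log (1 / s)) = 1 / s := Real.exp_log (by positivity)
      have h11 : (fun u => Real.exp (Real.log (1 / s)) * (s * l u)) = l := by
        funext u
        rw [hinv]; field_simp
      rw [h11] at hj
      have hlog : 1 ≤ Real.log (1 / s) := by
        rw [Real.le_log_iff_exp_le (by positivity), hs]
        have h12 : 1 / (1 / (4 * d)) = 4 * d := by field_simp
        rw [h12]
        have := Real.exp_one_lt_d9
        linarith
      have h13 : Real.exp (y / 8) ≤ Real.exp (Real.log (1 / s) *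
          (Mf G N (fun u => s * l u) / Zf G N (fun u => s * l u))) := by
        apply Real.exp_le_exp.2
        have h14 : y / 8 ≤ Mf G N (fun u => s * l u) / Zf G N (fun u => s * l u) := h8.trans h7
        have h15 : 0 ≤ Mf G N (fun u => s * l u) / Zf G N (fun u => s * l u) := by
          refine le_trans ?_ h14
          linarith
        calc y / 8 ≤ 1 * (Mf G N (fun u => s * l u) / Zf G N (fun u => s * l u)) := by linarith
          _ ≤ _ := mul_le_mul_of_nonneg_right hlog h15
      refine h13.trans (le_trans ?_ hj)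
      have h16 := one_le_zf (G := G) N (fun u => s * l u) hm0
      have h17 := Real.exp_pos (Real.log (1 / s) *
          (Mf G N (fun u => s * l u) / Zf G N (fun u => s * l u)))
      nlinarith

/-- the mean is at least `(log Z - 1) / log Λ` -/
theorem mean_lower (N : Finset V) (l : V → ℝ) (hl : ∀ u, 0 ≤ l u) (Λ : ℝ) (hΛ : 1 ≤ Λ)
    (hsum : ∑ u ∈ N, l u ≤ Λ) :
    Real.log (Zf G N l) ≤ 1 + Real.log Λ * (Mf G N l / Zf G N l) := by
  have hΛ0 : 0 < Λ := by linarith
  have hZ := zf_pos (G := G) N l hl
  have hj := jensen (G := G) N l hl (-Real.log Λ)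
  have h1 : Real.exp (-Real.log Λ) = 1 / Λ := by
    rw [Real.exp_neg, Real.exp_log hΛ0, one_div]
  have h2 : Zf G N (fun u => Real.exp (-Real.log Λ) * l u) ≤ Real.exp 1 := by
    refine (zf_le_exp (G := G) N _ (fun u => mul_nonneg (Real.exp_pos _).le (hl u))).trans ?_
    apply Real.exp_le_exp.2
    rw [← Finset.mul_sum, h1, one_div, ← div_eq_inv_mul, div_le_one hΛ0]
    exact hsum
  have h3 := Real.log_le_log (by positivity) (hj.trans h2)
  rw [Real.log_mul hZ.ne' (Real.exp_pos _).ne', Real.log_exp, Real.log_exp] at h3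
  linarith

end Pool.Agent.R143.JM
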