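import Mathlib
import Pool.Agent.R143.JM.Occ
import Pool.Agent.Helper311.Glue.Asym

set_option autoImplicit false

/-!
# Colouring graphs without large cliques
-/

namespace Pool.Agent.R143.JM

open Finset Filter Classical Pool.Agent.TH855 Pool.Agent.Helper311.Glue

set_option linter.unusedSectionVars false

/-- local occupancy for graphs without a clique of size `r + 1` -/
theorem occ_clique (a : ℝ) (ha1 : 1 < a) :
    ∃ T₀ : ℝ, ∀ T : ℝ, T₀ ≤ T → ∀ r : ℕ, 1 ≤ r →
      ∀ (V : Type) [Fintype V] (G : SimpleGraph V) (N : Finset V),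
      NoClique G N (r + 1) → ∀ l : V → ℝ, (∀ u, 0 ≤ l u) → (∀ u, l u ≤ 1) →
      Zf G N l ≤ Real.exp T + a * r * Real.log T / (T - 1) * Mf G N l := by
  have E1 : ∀ᶠ T : ℝ in atTop, (16 : ℝ) ≤ T ^ (a - 1) :=
    (tendsto_rpow_atTop (by linarith)).eventually_ge_atTop _
  obtain ⟨T₁, hT₁⟩ := eventually_atTop.1 E1
  refine ⟨max T₁ 16, ?_⟩
  intro T hT r hr V _ G N hN l hl hl1
  have hr0 : (0 : ℝ) < r := by exact_mod_cast hr
  obtain ⟨K, har⟩ : ∃ K : ℝ, a * r = K := ⟨_, rfl⟩
  rw [har]
  have hK0 : 0 < K := by rw [← har]; positivity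
  have h16 : (16 : ℝ) ≤ T := (le_max_right _ _).trans hT
  have hTa := hT₁ T ((le_max_left _ _).trans hT)
  have hT0 : 0 < T := by linarith
  have hlogT : 1 ≤ Real.log T := by
    rw [Real.le_log_iff_exp_le hT0]
    have := Real.exp_one_lt_d9
    linarith
  have hZ := zf_pos (G := G) N l hl
  have hM := mf_nonneg (G := G) N l hl
  have hγ : 0 ≤ K * Real.log T / (T - 1) := by
    have : 0 < T - 1 := by linarith
    positivity
  by_cases hle : Zf G N l ≤ Real.exp T
  · have := mul_nonneg hγ hM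
    linarith
  · push Not at hle
    have hlogZ : T ≤ Real.log (Zf G N l) := by
      rw [Real.le_log_iff_exp_le hZ]; exact hle.le
    obtain ⟨Λ, hΛ⟩ : ∃ Λ : ℝ, Λ = ∑ u ∈ N, l u := ⟨_, rfl⟩
    have hTΛ : T ≤ Λ := by
      refine hlogZ.trans ?_
      rw [hΛ]
      have := Real.log_le_log hZ (zf_le_exp (G := G) N l hl)
      rwa [Real.log_exp] at this
    have hΛ0 : 0 < Λ := by linarith
    have hmean := mean_lower (G := G) N l hl Λ (by linarith) (le_of_eq hΛ.symm)
    obtain ⟨m, hm⟩ : ∃ m : ℝ, m = Mf G N l / Zf G N l := ⟨_, rfl⟩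
    rw [← hm] at hmean
    have hm0 : 0 ≤ m := by rw [hm]; positivity
    have hmZ : m * Zf G N l = Mf G N l := by rw [hm]; field_simp
    -- the mean is large
    have key : T - 1 ≤ K * Real.log T * m := by
      by_cases hc : Λ ≤ T ^ K
      · have h1 : Real.log Λ ≤ K * Real.log T := by
          have := Real.log_le_log hΛ0 hc
          rwa [Real.log_rpow hT0] at this
        have h2 := mul_le_mul_of_nonneg_right h1 hm0
        linarith
      · push Not at hc
        obtain ⟨y, hy⟩ : ∃ y : ℝ, y = Λ ^ ((1 : ℝ) / r) := ⟨_, rfl⟩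
        have hy0 : 0 < y := by rw [hy]; positivity
        have hyr : y ^ r = Λ := by
          rw [hy, ← Real.rpow_natCast, ← Real.rpow_mul hΛ0.le]
          have : (1 : ℝ) / r * r = 1 := by field_simp
          rw [this, Real.rpow_one]
        obtain ⟨Y, hY⟩ : ∃ Y : ℝ, Y = T ^ a := ⟨_, rfl⟩
        have hYT : Y = T ^ (a - 1) * T := by
          rw [hY]
          have : T ^ a = T ^ ((a - 1) + 1) := by congr 1; ring
          rw [this, Real.rpow_add hT0, Real.rpow_one]
        have hYT' : 16 * T ≤ Y := by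
          rw [hYT]
          exact mul_le_mul_of_nonneg_right hTa hT0.le
        have hYy : Y ≤ y := by
          rw [hy, hY]
          have h3 : T ^ a = (T ^ K) ^ ((1 : ℝ) / r) := by
            rw [← Real.rpow_mul hT0.le]
            congr 1
            rw [← har]; field_simp
          rw [h3]
          exact Real.rpow_le_rpow (by positivity) hc.le (by positivity)
        have hlogΛ : Real.log Λ = r * Real.log y := by
          rw [← hyr, Real.log_pow]
        have h4 : Real.exp (y / 8) ≤ Zf G N l :=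
          zf_lower l hl hl1 y (by linarith) r N hN (by rw [hyr, hΛ])
        have h5 : y / 8 ≤ Real.log (Zf G N l) := by
          rw [Real.le_log_iff_exp_le hZ]; exact h4
        have h6 : y / 16 ≤ r * Real.log y * m := by
          rw [hlogΛ] at hmean
          linarith
        have hY0 : 0 < Y := by linarith
        have hlogY : Real.log Y = a * Real.log T := by rw [hY, Real.log_rpow hT0]
        have hlY0 : 0 < Real.log Y := by
          rw [hlogY]
          have : 0 < Real.log T := by linarith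
          have : 0 < a := by linarith
          positivity
        have hly0 : 0 < Real.log y := lt_of_lt_of_le hlY0 (Real.log_le_log hY0 hYy)
        have h7 := mono_div_log (by linarith : (3 : ℝ) ≤ Y) hYy
        rw [div_le_div_iff₀ hlY0 hly0] at h7
        -- Y log y ≤ y log Y
        have h8 : y * (Y / 16) ≤ y * (K * Real.log T * m) := by
          calc y * (Y / 16) = Y * (y / 16) := by ring
            _ ≤ Y * (r * Real.log y * m) := mul_le_mul_of_nonneg_left h6 hY0.le
            _ = (r * m) * (Y * Real.log y) := by ring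
            _ ≤ (r * m) * (y * Real.log Y) :=
                mul_le_mul_of_nonneg_left h7 (by positivity)
            _ = y * (K * Real.log T * m) := by rw [hlogY, ← har]; ring
        have h9 := le_of_mul_le_mul_left h8 hy0
        linarith
    have hT1 : 0 < T - 1 := by linarith
    have h10 : Zf G N l ≤ K * Real.log T / (T - 1) * Mf G N l := by
      rw [← hmZ, div_mul_eq_mul_div, le_div_iff₀ hT1]
      have := mul_le_mul_of_nonneg_left key hZ.le
      linarith
    have := Real.exp_pos T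
    linarith

/-- Johansson's theorem for `K_{r+2}`-free graphs, uniformly in `r`. -/
theorem col (ε : ℝ) (hε : 0 < ε) : ∃ Δ₀ : ℕ, ∀ Δ : ℕ, Δ₀ ≤ Δ → ∀ r : ℕ, 1 ≤ r →
    ∀ (V : Type) [Fintype V] (G : SimpleGraph V),
      (∀ v, ∀ N : Finset V, (∀ w ∈ N, G.Adj v w) → N.card ≤ Δ) →
      G.CliqueFree (r + 2) →
      ∃ n : ℕ, G.Colorable n ∧
        (n : ℝ) ≤ (1 + ε) * r * ((Δ : ℝ) * Real.log (Real.log (Δ : ℝ)) / Real.log (Δ : ℝ)) := by
  obtain ⟨e, he⟩ : ∃ e : ℝ, e = ε / (16 * (1 + ε)) := ⟨_, rfl⟩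
  have he0 : 0 < e := by rw [he]; positivity
  have heq : 16 * (e * (1 + ε)) = ε := by rw [he]; field_simp
  have he1 : e ≤ 1 / 16 := by
    rw [he, div_le_div_iff₀ (by positivity) (by norm_num)]
    linarith
  obtain ⟨T₀, hocc⟩ := occ_clique (1 + ε / 4) (by linarith)
  have hlogtend : Tendsto (fun n : ℕ => Real.log (n : ℝ)) atTop atTop :=
    Real.tendsto_log_atTop.comp tendsto_natCast_atTop_atTop
  have E1 := hlogtend.eventually (asy_exp (α := e) he0 (show 0 < ε / 16 by positivity) 1)
  have E2 := hlogtend.eventually_ge_atTop (max (1 / e) (max 16 (2 * T₀)))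
  obtain ⟨Δ₀, hΔ₀⟩ := eventually_atTop.1 (E1.and E2)
  refine ⟨max Δ₀ 1, ?_⟩
  intro Δ hΔ r hr V _ G hdeg hfree
  have hr0 : (1 : ℝ) ≤ r := by exact_mod_cast hr
  obtain ⟨e1, e2⟩ := hΔ₀ Δ ((le_max_left _ _).trans hΔ)
  obtain ⟨L, hL⟩ : ∃ L : ℝ, L = Real.log (Δ : ℝ) := ⟨_, rfl⟩
  rw [← hL] at e1 e2 ⊢
  have hΔ1 : (1 : ℝ) ≤ Δ := by exact_mod_cast (le_max_right _ _).trans hΔ
  have hΔexp : (Δ : ℝ) = Real.exp L := by rw [hL, Real.exp_log (by linarith)]
  have hLe : 1 / e ≤ L := (le_max_left _ _).trans e2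
  have hL16 : 16 ≤ L := (le_max_left _ _).trans ((le_max_right _ _).trans e2)
  have hLT : 2 * T₀ ≤ L := (le_max_right _ _).trans ((le_max_right _ _).trans e2)
  have hL0 : 0 < L := by linarith
  have heL : 1 ≤ e * L := by
    rw [div_le_iff₀ he0] at hLe; linarith
  have hlogL : 1 ≤ Real.log L := by
    rw [Real.le_log_iff_exp_le hL0]
    have := Real.exp_one_lt_d9
    linarith
  obtain ⟨T, hT⟩ : ∃ T : ℝ, T = (1 - 3 * e) * L := ⟨_, rfl⟩
  have hTL : L / 2 ≤ T := by
    rw [hT]
    have : 3 * e * L ≤ 3 * (1 / 16) * L := by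
      apply mul_le_mul_of_nonneg_right _ hL0.le
      linarith
    linarith
  have hTL2 : T ≤ L := by
    rw [hT]
    have : 0 < 3 * e * L := by positivity
    linarith
  have hT0 : 0 < T := by linarith
  have hT1 : 0 < T - 1 := by linarith
  have hlogT : Real.log T ≤ Real.log L := Real.log_le_log hT0 hTL2
  have hlogT0 : 0 ≤ Real.log T := Real.log_nonneg (by linarith)
  obtain ⟨X, hX⟩ : ∃ X : ℝ, X = (Δ : ℝ) * Real.log L / L := ⟨_, rfl⟩
  have hX0 : 0 ≤ X := by rw [hX]; positivity
  rw [← hX]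
  refine ⟨⌊(1 + ε) * r * X⌋₊, ?_, Nat.floor_le (by positivity)⟩
  refine colorable_of_occ (s0 := 2) le_rfl Δ (β := Real.exp T)
    (γ := (1 + ε / 4) * r * Real.log T / (T - 1)) (ℓ := Real.exp (e * L)) (Real.exp_pos _)
    (by positivity) (Real.exp_pos _)
    (fun v => hdeg v _ (fun w hw => (Finset.mem_filter.1 hw).2)) ?_ ?_
  · intro v N hN l hl hl1
    refine hocc T (by linarith) r hr V G N ?_ l hl (fun u => (hl1 u).trans (by norm_num))
    intro S hS hc
    refine hfree (insert v S) (hc.insert (fun w hw => hN w (hS hw)))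
  · have hfl : (1 + ε) * r * X - 1 ≤ (⌊(1 + ε) * r * X⌋₊ : ℝ) := by
      have := Nat.lt_floor_add_one ((1 + ε) * r * X)
      linarith
    obtain ⟨g, hg⟩ : ∃ g : ℝ, g = Real.exp (-(e * L)) := ⟨_, rfl⟩
    rw [← hg] at e1
    have hg0 : 0 < g := by rw [hg]; exact Real.exp_pos _
    have hgL : g * L ≤ ε / 16 := by
      have : g * L ≤ g * (L + 1) ^ 1 := mul_le_mul_of_nonneg_left (by linarith) hg0.le
      linarith
    -- `exp T * ℓ ≤ Δ g`
    have h1 : Real.exp T * Real.exp (e * L) ≤ Δ * g := by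
      rw [hΔexp, hg, ← Real.exp_add, ← Real.exp_add]
      apply Real.exp_le_exp.2
      rw [hT]
      have : 0 < e * L := by positivity
      linarith
    have h2 : (Δ : ℝ) * (2 : ℕ) / Real.exp (e * L) = 2 * (Δ * g) := by
      rw [hg, Real.exp_neg]; push_cast; field_simp
    have h3 : 1 ≤ Δ * g := by
      rw [hΔexp, hg, ← Real.exp_add]
      apply Real.one_le_exp
      have : e * L ≤ 1 * L := mul_le_mul_of_nonneg_right (by linarith) hL0.le
      linarith
    have h4 : 4 * (Δ * g) ≤ ε / 4 * r * X := by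
      have h5 : 4 * (Δ * g) ≤ ε / 4 * X := by
        rw [hX, mul_div_assoc', le_div_iff₀ hL0]
        have h5 : Δ * (g * L) ≤ Δ * (ε / 16) := mul_le_mul_of_nonneg_left hgL (by linarith)
        have h6 : (Δ : ℝ) * 1 ≤ Δ * Real.log L := mul_le_mul_of_nonneg_left hlogL (by linarith)
        have h7 : ε / 4 * (Δ * 1) ≤ ε / 4 * (Δ * Real.log L) :=
          mul_le_mul_of_nonneg_left h6 (by positivity)
        linarith
      refine h5.trans ?_
      have h6 : ε / 4 * 1 * X ≤ ε / 4 * r * X := by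
        apply mul_le_mul_of_nonneg_right _ hX0
        exact mul_le_mul_of_nonneg_left hr0 (by positivity)
      linarith
    have h8 : (1 + ε / 4) * r * Real.log T / (T - 1) * Δ ≤ (1 + 3 * ε / 4) * r * X := by
      rw [div_mul_eq_mul_div, div_le_iff₀ hT1, hX]
      have h9 : (1 - 4 * e) * L ≤ T - 1 := by rw [hT]; linarith
      have h10 : 1 + ε / 4 ≤ (1 + 3 * ε / 4) * (1 - 4 * e) := by
        have h11 : e * (1 + 3 * ε / 4) ≤ e * (1 + ε) :=
          mul_le_mul_of_nonneg_left (by linarith) he0.le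
        have h12 : (1 + 3 * ε / 4) * (1 - 4 * e) = 1 + 3 * ε / 4 - 4 * (e * (1 + 3 * ε / 4)) := by
          ring
        rw [h12]
        linarith
      have h13 : (1 + ε / 4) * L ≤ (1 + 3 * ε / 4) * (T - 1) := by
        calc (1 + ε / 4) * L ≤ (1 + 3 * ε / 4) * (1 - 4 * e) * L :=
              mul_le_mul_of_nonneg_right h10 hL0.le
          _ = (1 + 3 * ε / 4) * ((1 - 4 * e) * L) := by ring
          _ ≤ _ := mul_le_mul_of_nonneg_left h9 (by positivity)
      have h14 : (1 + ε / 4) * r * Real.log T * Δ ≤ (1 + ε / 4) * r * Real.log L * Δ := by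
        apply mul_le_mul_of_nonneg_right _ (by linarith)
        exact mul_le_mul_of_nonneg_left hlogT (by positivity)
      refine h14.trans ?_
      have h15 : (1 + 3 * ε / 4) * r * (Δ * Real.log L / L) * (T - 1) =
          ((1 + 3 * ε / 4) * (T - 1)) * (r * Δ * Real.log L) / L := by ring
      rw [h15, le_div_iff₀ hL0]
      have h16 := mul_le_mul_of_nonneg_right h13
        (show 0 ≤ (r : ℝ) * Δ * Real.log L by positivity)
      linarith
    rw [h2]
    linarith

end Pool.Agent.R143.JM
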