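import Mathlib
import Pool.Agent.R143.JM.Col

set_option autoImplicit false

/-!
# Colouring graphs whose neighbourhoods have small fractional chromatic number
-/

namespace Pool.Agent.R143.JM

open Finset Filter Classical Pool.Agent.TH855 Pool.Agent.Helper311.Glue

set_option linter.unusedSectionVars false

/-- Some independent sets of `G` cover every neighbour of `v` at least `m / ρ` times, where `m` is
the number of the sets. -/
def FracNbr {V : Type} (G : SimpleGraph V) (ρ : ℝ) (v : V) : Prop :=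
  ∃ (m : ℕ) (I : Fin m → Finset V), 0 < m ∧ (∀ i, ∀ x ∈ I i, ∀ y ∈ I i, ¬ G.Adj x y) ∧
    ∀ u, G.Adj v u → (m : ℝ) ≤ ρ * ((univ.filter (fun i => u ∈ I i)).card : ℝ)

theorem FracNbr.anti {V : Type} {G H : SimpleGraph V} {ρ : ℝ} {v : V} (h : FracNbr G ρ v)
    (hle : H ≤ G) : FracNbr H ρ v := by
  obtain ⟨m, I, hm, hI, hc⟩ := h
  exact ⟨m, I, hm, fun i x hx y hy hxy => hI i x hx y hy (hle hxy), fun u hu => hc u (hle hu)⟩

variable {V : Type} [Fintype V] {G : SimpleGraph V}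

/-- the partition function of an independent set -/
theorem zf_indep (N : Finset V) (l : V → ℝ)
    (hI : ∀ x ∈ N, ∀ y ∈ N, ¬ G.Adj x y) : Zf G N l = ∏ u ∈ N, (1 + l u) := by
  have h1 : ∏ u ∈ N, (1 + l u) = ∑ A ∈ N.powerset, ∏ u ∈ A, l u := Finset.prod_one_add N
  rw [h1, Zf]
  refine Finset.sum_congr ?_ (fun _ _ => rfl)
  ext A
  rw [mem_ind, Finset.mem_powerset]
  constructor
  · exact fun h => h.1
  · intro h
    refine ⟨h, ?_⟩
    intro x hx y hy
    exact hI x (h hx) y (h hy)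

theorem half_le_log (x : ℝ) (h0 : 0 ≤ x) (h1 : x ≤ 1) : Real.exp (x / 2) ≤ 1 + x := by
  have h2 := Real.exp_bound_div_one_sub_of_interval (x := x / 2) (by linarith) (by linarith)
  refine h2.trans ?_
  rw [div_le_iff₀ (by linarith)]
  nlinarith

/-- the partition function is large -/
theorem zf_frac (N : Finset V) (l : V → ℝ) (hl : ∀ u, 0 ≤ l u) (hl1 : ∀ u, l u ≤ 1) (ρ : ℝ)
    (hρ : 0 < ρ) (m : ℕ) (I : Fin m → Finset V) (hm : 0 < m)
    (hI : ∀ i, ∀ x ∈ I i, ∀ y ∈ I i, ¬ G.Adj x y)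
    (hc : ∀ u ∈ N, (m : ℝ) ≤ ρ * ((univ.filter (fun i => u ∈ I i)).card : ℝ)) :
    (∑ u ∈ N, l u) ≤ 2 * ρ * Real.log (Zf G N l) := by
  have hZ := zf_pos (G := G) N l hl
  have h1 : ∀ i, (∑ u ∈ N.filter (fun u => u ∈ I i), l u) ≤ 2 * Real.log (Zf G N l) := by
    intro i
    have h2 : Real.exp ((∑ u ∈ N.filter (fun u => u ∈ I i), l u) / 2) ≤ Zf G N l := by
      refine le_trans ?_ (zf_mono (Finset.filter_subset (fun u => u ∈ I i) N) l hl)
      rw [zf_indep (G := G) _ l (fun x hx y hy => hI i x (Finset.mem_filter.1 hx).2 y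
        (Finset.mem_filter.1 hy).2), Finset.sum_div, Real.exp_sum]
      exact Finset.prod_le_prod (fun u _ => (Real.exp_pos _).le)
        (fun u _ => half_le_log _ (hl u) (hl1 u))
    have h3 := (Real.le_log_iff_exp_le hZ).2 h2
    linarith
  have h2 : (m : ℝ) * ∑ u ∈ N, l u ≤ ρ * ∑ i, ∑ u ∈ N.filter (fun u => u ∈ I i), l u := by
    have h3 : ∑ i, ∑ u ∈ N.filter (fun u => u ∈ I i), l u =
        ∑ u ∈ N, ((univ.filter (fun i => u ∈ I i)).card : ℝ) * l u := by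
      simp_rw [Finset.sum_filter]
      rw [Finset.sum_comm]
      refine Finset.sum_congr rfl (fun u _ => ?_)
      rw [← Finset.sum_filter, Finset.sum_const, nsmul_eq_mul]
    rw [h3, Finset.mul_sum, Finset.mul_sum]
    refine Finset.sum_le_sum (fun u hu => ?_)
    have := mul_le_mul_of_nonneg_right (hc u hu) (hl u)
    linarith
  have h3 : ∑ i, ∑ u ∈ N.filter (fun u => u ∈ I i), l u ≤
      ∑ _i : Fin m, 2 * Real.log (Zf G N l) := Finset.sum_le_sum (fun i _ => h1 i)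
  rw [Finset.sum_const, Finset.card_univ, Fintype.card_fin, nsmul_eq_mul] at h3
  have hm' : (0 : ℝ) < m := by exact_mod_cast hm
  have h4 := h2.trans (mul_le_mul_of_nonneg_left h3 hρ.le)
  have h5 : (m : ℝ) * ∑ u ∈ N, l u ≤ m * (2 * ρ * Real.log (Zf G N l)) := by linarith
  exact le_of_mul_le_mul_left h5 hm'

/-- local occupancy -/
theorem occ_frac (δ : ℝ) (hδ : 0 < δ) (hδ1 : δ < 1) (ρ : ℝ) (hρ : 1 ≤ ρ) (T : ℝ) (hT : 0 < T)
    (v : V) (hv : FracNbr G ρ v) (N : Finset V) (hN : ∀ w ∈ N, G.Adj v w) (l : V → ℝ)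
    (hl : ∀ u, 0 ≤ l u) (hl1 : ∀ u, l u ≤ 1) :
    Zf G N l ≤ Real.exp T + Real.log (2 * ρ / δ) / (1 - δ) / T * Mf G N l := by
  obtain ⟨m, I, hm, hI, hc⟩ := hv
  have hZ := zf_pos (G := G) N l hl
  have hM := mf_nonneg (G := G) N l hl
  have h1δ : 0 < 1 - δ := by linarith
  obtain ⟨R, hR⟩ : ∃ R : ℝ, R = 2 * ρ / δ := ⟨_, rfl⟩
  rw [← hR]
  have hR1 : 1 ≤ R := by
    rw [hR, le_div_iff₀ hδ]; linarith
  have hR0 : 0 < R := by linarith
  have hlogR : 0 ≤ Real.log R := Real.log_nonneg hR1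
  by_cases hle : Zf G N l ≤ Real.exp T
  · have : 0 ≤ Real.log R / (1 - δ) / T * Mf G N l := by positivity
    linarith
  · push Not at hle
    have hlogZ : T ≤ Real.log (Zf G N l) := by
      rw [Real.le_log_iff_exp_le hZ]; exact hle.le
    have hΛ := zf_frac (G := G) N l hl hl1 ρ (by linarith) m I hm hI
      (fun u hu => hc u (hN u hu))
    -- the mean
    obtain ⟨z, hz⟩ : ∃ z : ℝ, z = Real.log (Zf G N l) := ⟨_, rfl⟩
    rw [← hz] at hlogZ hΛ
    have hz0 : 0 < z := by linarith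
    obtain ⟨q, hq⟩ : ∃ q : ℝ, q = Mf G N l / Zf G N l := ⟨_, rfl⟩
    have hq0 : 0 ≤ q := by rw [hq]; positivity
    have hqZ : q * Zf G N l = Mf G N l := by rw [hq]; field_simp
    have hj := jensen (G := G) N l hl (-Real.log R)
    have hexp : Real.exp (-Real.log R) = 1 / R := by
      rw [Real.exp_neg, Real.exp_log hR0, one_div]
    have h2 : Zf G N (fun u => Real.exp (-Real.log R) * l u) ≤ Real.exp (δ * z) := by
      refine (zf_le_exp (G := G) N _ (fun u => mul_nonneg (Real.exp_pos _).le (hl u))).trans ?_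
      apply Real.exp_le_exp.2
      rw [← Finset.mul_sum, hexp, one_div, ← div_eq_inv_mul, div_le_iff₀ hR0]
      refine hΛ.trans (le_of_eq ?_)
      rw [hR]; field_simp
    have h3 := Real.log_le_log (by positivity) (hj.trans h2)
    rw [Real.log_mul hZ.ne' (Real.exp_pos _).ne', Real.log_exp, Real.log_exp, ← hq, ← hz] at h3
    -- `(1 - δ) z ≤ q log R`
    have h4 : (1 - δ) * T ≤ Real.log R * q := by
      have : (1 - δ) * T ≤ (1 - δ) * z := mul_le_mul_of_nonneg_left hlogZ h1δ.le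
      linarith
    have h5 : 1 ≤ Real.log R / (1 - δ) / T * q := by
      rw [div_div, div_mul_eq_mul_div, le_div_iff₀ (by positivity)]
      linarith
    have h6 : Zf G N l ≤ Real.log R / (1 - δ) / T * Mf G N l := by
      rw [← hqZ]
      have := mul_le_mul_of_nonneg_right h5 hZ.le
      linarith
    have := Real.exp_pos T
    linarith

theorem half_le_K (δ ρ : ℝ) (hδ : 0 < δ) (hδ1 : δ < 1) (hρ : 1 ≤ ρ) :
    1 / 2 ≤ Real.log (2 * ρ / δ) / (1 - δ) := by
  have h1 : 0 < 1 - δ := by linarith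
  rw [le_div_iff₀ h1]
  have h2 : (2 : ℝ) ≤ 2 * ρ / δ := by
    rw [le_div_iff₀ hδ]; nlinarith
  have h3 := Real.log_le_log (by norm_num) h2
  have h4 := Real.log_two_gt_d9
  nlinarith

/-- colouring from the local occupancy -/
theorem col_occ (ε : ℝ) (hε : 0 < ε) : ∃ Δ₀ : ℕ, ∀ Δ : ℕ, Δ₀ ≤ Δ → ∀ K : ℝ, 1 / 2 ≤ K →
    ∀ (V : Type) [Fintype V] (G : SimpleGraph V),
      (∀ v, ∀ N : Finset V, (∀ w ∈ N, G.Adj v w) → N.card ≤ Δ) →
      (∀ T : ℝ, 0 < T → ∀ v, ∀ N : Finset V, (∀ w ∈ N, G.Adj v w) → ∀ l : V → ℝ,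
        (∀ u, 0 ≤ l u) → (∀ u, l u ≤ 1) →
        Zf G N l ≤ Real.exp T + K / T * Mf G N l) →
      ∃ n : ℕ, G.Colorable n ∧
        (n : ℝ) ≤ (1 + ε) * K * ((Δ : ℝ) / Real.log (Δ : ℝ)) := by
  obtain ⟨e, he⟩ : ∃ e : ℝ, e = ε / (16 * (1 + ε)) := ⟨_, rfl⟩
  have he0 : 0 < e := by rw [he]; positivity
  have heq : 16 * (e * (1 + ε)) = ε := by rw [he]; field_simp
  have he1 : e ≤ 1 / 16 := by
    rw [he, div_le_div_iff₀ (by positivity) (by norm_num)]
    linarith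
  have hlogtend : Tendsto (fun n : ℕ => Real.log (n : ℝ)) atTop atTop :=
    Real.tendsto_log_atTop.comp tendsto_natCast_atTop_atTop
  have E1 := hlogtend.eventually (asy_exp (α := e) he0 (show 0 < ε / 32 by positivity) 1)
  have E2 := hlogtend.eventually_ge_atTop (max (1 / e) 16)
  obtain ⟨Δ₀, hΔ₀⟩ := eventually_atTop.1 (E1.and E2)
  refine ⟨max Δ₀ 1, ?_⟩
  intro Δ hΔ K hK V _ G hdeg hocc
  obtain ⟨e1, e2⟩ := hΔ₀ Δ ((le_max_left _ _).trans hΔ)
  obtain ⟨L, hL⟩ : ∃ L : ℝ, L = Real.log (Δ : ℝ) := ⟨_, rfl⟩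
  rw [← hL] at e1 e2 ⊢
  have hΔ1 : (1 : ℝ) ≤ Δ := by exact_mod_cast (le_max_right _ _).trans hΔ
  have hΔexp : (Δ : ℝ) = Real.exp L := by rw [hL, Real.exp_log (by linarith)]
  have hLe : 1 / e ≤ L := (le_max_left _ _).trans e2
  have hL16 : 16 ≤ L := (le_max_right _ _).trans e2
  have hL0 : 0 < L := by linarith
  have heL : 1 ≤ e * L := by
    rw [div_le_iff₀ he0] at hLe; linarith
  obtain ⟨T, hT⟩ : ∃ T : ℝ, T = (1 - 3 * e) * L := ⟨_, rfl⟩
  have hTL : L / 2 ≤ T := by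
    rw [hT]
    have : 3 * e * L ≤ 3 * (1 / 16) * L := by
      apply mul_le_mul_of_nonneg_right _ hL0.le
      linarith
    linarith
  have hT0 : 0 < T := by linarith
  have hK0 : 0 < K := by linarith
  obtain ⟨X, hX⟩ : ∃ X : ℝ, X = (Δ : ℝ) / L := ⟨_, rfl⟩
  have hX0 : 0 ≤ X := by rw [hX]; positivity
  rw [← hX]
  refine ⟨⌊(1 + ε) * K * X⌋₊, ?_, Nat.floor_le (by positivity)⟩
  refine colorable_of_occ (s0 := 2) le_rfl Δ (β := Real.exp T)
    (γ := K / T) (ℓ := Real.exp (e * L)) (Real.exp_pos _)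
    (by positivity) (Real.exp_pos _)
    (fun v => hdeg v _ (fun w hw => (Finset.mem_filter.1 hw).2)) ?_ ?_
  · intro v N hN l hl hl1
    exact hocc T hT0 v N hN l hl (fun u => (hl1 u).trans (by norm_num))
  · have hfl : (1 + ε) * K * X - 1 ≤ (⌊(1 + ε) * K * X⌋₊ : ℝ) := by
      have := Nat.lt_floor_add_one ((1 + ε) * K * X)
      linarith
    obtain ⟨g, hg⟩ : ∃ g : ℝ, g = Real.exp (-(e * L)) := ⟨_, rfl⟩
    rw [← hg] at e1
    have hg0 : 0 < g := by rw [hg]; exact Real.exp_pos _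
    have hgL : g * L ≤ ε / 32 := by
      have : g * L ≤ g * (L + 1) ^ 1 := mul_le_mul_of_nonneg_left (by linarith) hg0.le
      linarith
    -- `exp T * ℓ ≤ Δ g`
    have h1 : Real.exp T * Real.exp (e * L) ≤ Δ * g := by
      rw [hΔexp, hg, ← Real.exp_add, ← Real.exp_add]
      apply Real.exp_le_exp.2
      rw [hT]
      have : 0 < e * L := by positivity
      linarith
    have h2 : (Δ : ℝ) * (2 : ℕ) / Real.exp (e * L) = 2 * (Δ * g) := by
      rw [hg, Real.exp_neg]; push_cast; field_simp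
    have h3 : 1 ≤ Δ * g := by
      rw [hΔexp, hg, ← Real.exp_add]
      apply Real.one_le_exp
      have : e * L ≤ 1 * L := mul_le_mul_of_nonneg_right (by linarith) hL0.le
      linarith
    have h4 : 4 * (Δ * g) ≤ ε / 4 * K * X := by
      have h5 : 4 * (Δ * g) ≤ ε / 8 * X := by
        rw [hX, mul_div_assoc', le_div_iff₀ hL0]
        have h5 : Δ * (g * L) ≤ Δ * (ε / 32) := mul_le_mul_of_nonneg_left hgL (by linarith)
        linarith
      refine h5.trans ?_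
      have h6 : ε / 4 * (1 / 2) * X ≤ ε / 4 * K * X := by
        apply mul_le_mul_of_nonneg_right _ hX0
        exact mul_le_mul_of_nonneg_left hK (by positivity)
      linarith
    have h8 : K / T * Δ ≤ (1 + 3 * ε / 4) * K * X := by
      rw [div_mul_eq_mul_div, div_le_iff₀ hT0, hX]
      have h10 : 1 ≤ (1 + 3 * ε / 4) * (1 - 3 * e) := by
        have h11 : e * (1 + 3 * ε / 4) ≤ e * (1 + ε) :=
          mul_le_mul_of_nonneg_left (by linarith) he0.le
        have h12 : (1 + 3 * ε / 4) * (1 - 3 * e) = 1 + 3 * ε / 4 - 3 * (e * (1 + 3 * ε / 4)) := by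
          ring
        rw [h12]
        linarith
      have h15 : (1 + 3 * ε / 4) * K * (Δ / L) * T =
          ((1 + 3 * ε / 4) * (1 - 3 * e)) * (K * Δ) := by rw [hT]; field_simp
      rw [h15]
      have h16 := mul_le_mul_of_nonneg_right h10 (show 0 ≤ K * Δ by positivity)
      linarith
    rw [h2]
    linarith

/-- Graphs all of whose neighbourhoods have fractional chromatic number at most `ρ`. -/
theorem col_frac (ε : ℝ) (hε : 0 < ε) : ∃ Δ₀ : ℕ, ∀ Δ : ℕ, Δ₀ ≤ Δ → ∀ δ ρ : ℝ, 0 < δ → δ < 1 →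
    1 ≤ ρ → ∀ (V : Type) [Fintype V] (G : SimpleGraph V),
      (∀ v, ∀ N : Finset V, (∀ w ∈ N, G.Adj v w) → N.card ≤ Δ) →
      (∀ v, FracNbr G ρ v) →
      ∃ n : ℕ, G.Colorable n ∧
        (n : ℝ) ≤ (1 + ε) * (Real.log (2 * ρ / δ) / (1 - δ)) *
          ((Δ : ℝ) / Real.log (Δ : ℝ)) := by
  obtain ⟨Δ₀, h⟩ := col_occ ε hε
  refine ⟨Δ₀, fun Δ hΔ δ ρ hδ hδ1 hρ V _ G hdeg hf => h Δ hΔ _ ?_ V G hdeg ?_⟩
  · exact half_le_K δ ρ hδ hδ1 hρ
  · intro T hT v N hN l hl hl1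
    exact occ_frac δ hδ hδ1 ρ hρ T hT v (hf v) N hN l hl hl1

end Pool.Agent.R143.JM
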