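import Mathlib
import Pool.Agent.R143.JM.Occ
import Pool.Agent.Helper311.Glue.Asym

set_option autoImplicit false

/-!
# Colouring graphs with few edges in the neighbourhoods
-/

namespace Pool.Agent.R143.JM

open Finset Filter Classical Pool.Agent.TH855 Pool.Agent.Helper311.Glue

set_option linter.unusedSectionVars false

/-- local occupancy for sets with few edges -/
theorem occ_sparse {V : Type} [Fintype V] {G : SimpleGraph V} (lam ε T E : ℝ) (hlam : 0 ≤ lam)
    (hε : ε < 1) (hT : 0 < T) (N : Finset V)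
    (hE : ∑ u ∈ N, ((N.filter (fun w => G.Adj u w)).card : ℝ) ≤ E)
    (hmain : lam + lam ^ 2 * E / T ≤ ε)
    (l : V → ℝ) (hl : ∀ u, 0 ≤ l u) (hl1 : ∀ u, l u ≤ lam) :
    Zf G N l ≤ Real.exp T + 1 / ((1 - ε) * T) * Mf G N l := by
  have hM := mf_nonneg (G := G) N l hl
  have hcoef : 0 < 1 / ((1 - ε) * T) := by
    have : 0 < 1 - ε := by linarith
    positivity
  by_cases hle : ∑ u ∈ N, l u ≤ T
  · have h1 := zf_le_exp (G := G) N l hl
    have h2 : Real.exp (∑ u ∈ N, l u) ≤ Real.exp T := Real.exp_le_exp.2 hle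
    have h3 := mul_nonneg hcoef.le hM
    linarith
  · push Not at hle
    obtain ⟨Λ, hΛ⟩ : ∃ Λ : ℝ, Λ = ∑ u ∈ N, l u := ⟨_, rfl⟩
    rw [← hΛ] at hle
    have hΛ0 : 0 < Λ := hT.trans hle
    obtain ⟨s, hs⟩ : ∃ s : ℝ, s = T / Λ := ⟨_, rfl⟩
    have hs0 : 0 ≤ s := by rw [hs]; positivity
    have hs1 : s ≤ 1 := by rw [hs, div_le_one hΛ0]; exact hle.le
    obtain ⟨m, hm⟩ : ∃ m : V → ℝ, m = fun u => s * l u := ⟨_, rfl⟩
    have hmu : ∀ u, m u = s * l u := fun u => by rw [hm]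
    have hm0 : ∀ u, 0 ≤ m u := fun u => by rw [hmu]; exact mul_nonneg hs0 (hl u)
    have hm1 : ∀ u, m u ≤ lam := by
      intro u
      have := mul_le_mul_of_nonneg_right hs1 (hl u)
      rw [hmu]
      linarith [hl1 u]
    have hmT : ∑ u ∈ N, m u = T := by
      simp only [hmu]
      rw [← Finset.mul_sum, ← hΛ, hs]
      field_simp
    have h1 := mf_lower (G := G) N m hm0
    have h2 : ∑ u ∈ N, m u * Dg G N m u ≤ lam ^ 2 * E := by
      have h3 : ∀ u ∈ N, m u * Dg G N m u ≤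
          lam ^ 2 * ((N.filter (fun w => G.Adj u w)).card : ℝ) := by
        intro u _
        have h4 : Dg G N m u ≤ (N.filter (fun w => G.Adj u w)).card * lam := by
          rw [Dg]
          refine (Finset.sum_le_sum (fun w _ => hm1 w)).trans ?_
          rw [Finset.sum_const, nsmul_eq_mul]
        have h5 : 0 ≤ Dg G N m u := by
          rw [Dg]; exact Finset.sum_nonneg (fun w _ => hm0 w)
        calc m u * Dg G N m u ≤ lam * ((N.filter (fun w => G.Adj u w)).card * lam) :=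
              mul_le_mul (hm1 u) h4 h5 hlam
          _ = _ := by ring
      refine (Finset.sum_le_sum h3).trans ?_
      rw [← Finset.mul_sum]
      exact mul_le_mul_of_nonneg_left hE (by positivity)
    have h3 : (1 - ε) * T ≤ ∑ u ∈ N, m u * (1 - m u - Dg G N m u) := by
      have e1 : ∑ u ∈ N, m u * (1 - m u - Dg G N m u) =
          ∑ u ∈ N, m u - ∑ u ∈ N, m u * m u - ∑ u ∈ N, m u * Dg G N m u := by
        rw [← Finset.sum_sub_distrib, ← Finset.sum_sub_distrib]
        refine Finset.sum_congr rfl (fun u _ => by ring)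
      have e2 : ∑ u ∈ N, m u * m u ≤ lam * T := by
        rw [← hmT, Finset.mul_sum]
        refine Finset.sum_le_sum (fun u _ => ?_)
        exact mul_le_mul_of_nonneg_right (hm1 u) (hm0 u)
      rw [e1, hmT]
      have e4 := mul_le_mul_of_nonneg_right hmain hT.le
      have e5 : (lam + lam ^ 2 * E / T) * T = lam * T + lam ^ 2 * E := by field_simp
      rw [e5] at e4
      linarith
    have hZm := zf_pos (G := G) N m hm0
    have hZl := zf_pos (G := G) N l hl
    have h4 := scale (G := G) N l hl hs0 hs1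
    rw [← hm] at h4
    have h5 : Zf G N m * ((1 - ε) * T) ≤ Mf G N m :=
      (mul_le_mul_of_nonneg_left h3 hZm.le).trans h1
    have h6 : (Zf G N m * ((1 - ε) * T)) * Zf G N l ≤ Mf G N l * Zf G N m :=
      (mul_le_mul_of_nonneg_right h5 hZl.le).trans h4
    have h7 : ((1 - ε) * T) * Zf G N l ≤ Mf G N l := by
      have h8 : Zf G N m * (((1 - ε) * T) * Zf G N l) ≤ Zf G N m * Mf G N l := by
        linarith
      exact le_of_mul_le_mul_left h8 hZm
    have h9 : Zf G N l ≤ 1 / ((1 - ε) * T) * Mf G N l := by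
      have : 0 < (1 - ε) * T := mul_pos (by linarith) hT
      rw [one_div, ← div_eq_inv_mul, le_div_iff₀ this]
      linarith
    have := Real.exp_pos T
    linarith

/-- Graphs in which all neighbourhoods have at most `Δ ^ 2 / f` ordered pairs of adjacent vertices
can be coloured with `(2 + ε) Δ / log f` colours. -/
theorem col_sparse (ε : ℝ) (hε : 0 < ε) (hε1 : ε ≤ 1) : ∃ f₀ : ℝ, ∀ f : ℝ, f₀ ≤ f →
    ∀ Δ : ℕ, f ≤ (Δ : ℝ) ^ 2 → ∀ (V : Type) [Fintype V] (G : SimpleGraph V),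
      (∀ v, ∀ N : Finset V, (∀ w ∈ N, G.Adj v w) → N.card ≤ Δ) →
      (∀ v, ∀ N : Finset V, (∀ w ∈ N, G.Adj v w) →
        ∑ u ∈ N, ((N.filter (fun w => G.Adj u w)).card : ℝ) ≤ (Δ : ℝ) ^ 2 / f) →
      ∃ n : ℕ, G.Colorable n ∧ (n : ℝ) ≤ (2 + ε) * ((Δ : ℝ) / Real.log f) := by
  obtain ⟨e, he⟩ : ∃ e : ℝ, e = ε / 40 := ⟨_, rfl⟩
  have he0 : 0 < e := by rw [he]; positivity
  have he1 : e ≤ 1 / 40 := by rw [he]; linarith
  have E1 := Real.tendsto_log_atTop.eventually (asy_exp (α := e) he0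
    (show 0 < min (ε / 14) (e / 2) by
      apply lt_min <;> positivity) 1)
  have E2 := Real.tendsto_log_atTop.eventually_ge_atTop 1000
  obtain ⟨f₀, hf₀⟩ := eventually_atTop.1 ((E1.and E2).and (eventually_ge_atTop 1))
  refine ⟨f₀, ?_⟩
  intro f hf Δ hfΔ V _ G hdeg hsp
  obtain ⟨⟨e1, e2⟩, hf1⟩ := hf₀ f hf
  obtain ⟨F, hF⟩ : ∃ F : ℝ, F = Real.log f := ⟨_, rfl⟩
  rw [← hF] at e1 e2 ⊢
  have hF0 : 0 < F := by linarith
  have hf0 : 0 < f := by linarith
  have hfexp : f = Real.exp F := by rw [hF, Real.exp_log hf0]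
  obtain ⟨g, hg⟩ : ∃ g : ℝ, g = Real.exp (e * F) := ⟨_, rfl⟩
  have hg0 : 0 < g := by rw [hg]; exact Real.exp_pos _
  have hginv : Real.exp (-(e * F)) = 1 / g := by rw [hg, Real.exp_neg, one_div]
  rw [hginv, pow_one] at e1
  have hκ1 := e1.trans (min_le_left _ _)
  have hκ2 := e1.trans (min_le_right _ _)
  -- `F ≤ g ε / 14` and `1 / g ≤ e / 2`
  have hgF : F / g ≤ ε / 14 := by
    have : F / g ≤ 1 / g * (F + 1) := by
      rw [div_mul_eq_mul_div, one_mul]
      exact div_le_div_of_nonneg_right (by linarith) hg0.le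
    linarith
  have hg1 : 1 / g ≤ e / 2 := by
    have h1 : 1 / g * 1 ≤ 1 / g * (F + 1) :=
      mul_le_mul_of_nonneg_left (by linarith) (by positivity)
    linarith
  have hg2 : 2 ≤ g := by
    rw [div_le_iff₀ hg0] at hg1
    nlinarith
  -- the square root of `f`
  obtain ⟨q, hq⟩ : ∃ q : ℝ, q = Real.exp (F / 2) := ⟨_, rfl⟩
  have hq0 : 0 < q := by rw [hq]; exact Real.exp_pos _
  have hqf : q ^ 2 = f := by
    rw [hq, hfexp, ← Real.exp_nat_mul]; congr 1; push_cast; ring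
  have hqΔ : q ≤ Δ := by
    have : q ^ 2 ≤ (Δ : ℝ) ^ 2 := by rw [hqf]; exact hfΔ
    exact le_of_sq_le_sq this (by positivity)
  have hgq : g ≤ q := by
    rw [hg, hq]
    apply Real.exp_le_exp.2
    have : e * F ≤ 1 / 40 * F := mul_le_mul_of_nonneg_right he1 hF0.le
    linarith
  have hΔ0 : (0 : ℝ) < Δ := by linarith
  -- the threshold
  obtain ⟨B, hB⟩ : ∃ B : ℝ, B = Δ * g / q := ⟨_, rfl⟩
  have hBg : g ≤ B := by
    rw [hB, le_div_iff₀ hq0, mul_comm (Δ : ℝ)]
    exact mul_le_mul_of_nonneg_left hqΔ hg0.le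
  have hB0 : 0 < B := by linarith
  obtain ⟨s0, hs0⟩ : ∃ s0 : ℕ, s0 = ⌈B⌉₊ + 1 := ⟨_, rfl⟩
  have hs0a : B ≤ (s0 : ℝ) - 1 := by
    rw [hs0]; push_cast
    have := Nat.le_ceil B
    linarith
  have hs0b : (s0 : ℝ) ≤ 2 * B := by
    rw [hs0]; push_cast
    have := Nat.ceil_lt_add_one hB0.le
    linarith
  have hs0R : (2 : ℝ) ≤ s0 := by linarith
  have hs02 : 2 ≤ s0 := by exact_mod_cast hs0R
  obtain ⟨lam, hlam⟩ : ∃ lam : ℝ, lam = 1 / B := ⟨_, rfl⟩
  have hlam0 : 0 < lam := by rw [hlam]; positivity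
  have hinv : 1 / ((s0 : ℝ) - 1) ≤ lam := by
    rw [hlam]; exact div_le_div_of_nonneg_left zero_le_one hB0 hs0a
  have hlame : lam ≤ e / 2 := by
    refine le_trans ?_ hg1
    rw [hlam]; exact div_le_div_of_nonneg_left zero_le_one hg0 hBg
  have hlamE : lam ^ 2 * ((Δ : ℝ) ^ 2 / f) = (1 / g) ^ 2 := by
    rw [hlam, hB, ← hqf]; field_simp
  obtain ⟨T, hT⟩ : ∃ T : ℝ, T = (1 / 2 - 3 * e) * F := ⟨_, rfl⟩
  have hT1 : 1 ≤ T := by
    rw [hT]
    have h1 : (1 / 4 : ℝ) * F ≤ (1 / 2 - 3 * e) * F :=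
      mul_le_mul_of_nonneg_right (by linarith) hF0.le
    linarith
  have hT0 : 0 < T := by linarith
  have hmain : lam + lam ^ 2 * ((Δ : ℝ) ^ 2 / f) / T ≤ e := by
    rw [hlamE]
    have h1 : (1 / g) ^ 2 / T ≤ 1 / g := by
      rw [div_le_iff₀ hT0]
      have h2 : (1 / g) * (1 / g) ≤ 1 / g * 1 := by
        apply mul_le_mul_of_nonneg_left _ (by positivity)
        linarith
      have h3 : 1 / g * 1 ≤ 1 / g * T := mul_le_mul_of_nonneg_left hT1 (by positivity)
      rw [sq]; linarith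
    linarith
  obtain ⟨X, hX⟩ : ∃ X : ℝ, X = (Δ : ℝ) / F := ⟨_, rfl⟩
  have hX0 : 0 < X := by rw [hX]; positivity
  rw [← hX]
  refine ⟨⌊(2 + ε) * X⌋₊, ?_, Nat.floor_le (by positivity)⟩
  refine colorable_of_occ (s0 := s0) hs02 Δ (β := Real.exp T)
    (γ := 1 / ((1 - e) * T)) (ℓ := s0 * g) (Real.exp_pos _)
    ?_ (by positivity)
    (fun v => hdeg v _ (fun w hw => (Finset.mem_filter.1 hw).2)) ?_ ?_
  · have : 0 < (1 - e) * T := mul_pos (by linarith) hT0
    positivity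
  · intro v N hN l hl hl1
    exact occ_sparse lam e T _ hlam0.le (by linarith) hT0 N (hsp v N hN) hmain l hl
      (fun u => (hl1 u).trans hinv)
  · have hfl : (2 + ε) * X - 1 ≤ (⌊(2 + ε) * X⌋₊ : ℝ) := by
      have := Nat.lt_floor_add_one ((2 + ε) * X)
      linarith
    -- first term
    have h1 : Real.exp T * (s0 * g) ≤ 2 * (Δ / g) := by
      have h2 : Real.exp T * (s0 * g) ≤ Real.exp T * (2 * B * g) :=
        mul_le_mul_of_nonneg_left (mul_le_mul_of_nonneg_right hs0b hg0.le) (Real.exp_pos _).le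
      refine h2.trans (le_of_eq ?_)
      have h3 : Real.exp T * g ^ 3 = q := by
        rw [hg, hq, ← Real.exp_nat_mul, ← Real.exp_add]
        congr 1
        rw [hT]; push_cast; ring
      rw [hB]
      have h4 : Real.exp T * (2 * (Δ * g / q) * g) = 2 * (Δ / g) * ((Real.exp T * g ^ 3) / q) := by
        field_simp
      rw [h4, h3, div_self hq0.ne', mul_one]
    have h2 : (Δ : ℝ) * s0 / (s0 * g) = Δ / g := by
      have : (s0 : ℝ) ≠ 0 := by positivity
      field_simp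
    have h3 : 1 ≤ Δ / g := by
      rw [le_div_iff₀ hg0]; linarith
    have h4 : 7 * (Δ / g) ≤ ε / 2 * X := by
      have h5 : Δ / g = (F / g) * X := by rw [hX]; field_simp
      rw [h5]
      have := mul_le_mul_of_nonneg_right hgF hX0.le
      linarith
    have h5 : 1 / ((1 - e) * T) * Δ ≤ (2 + ε / 2) * X := by
      have h6 : 0 < (1 - e) * T := mul_pos (by linarith) hT0
      rw [div_mul_eq_mul_div, one_mul, div_le_iff₀ h6, hX, hT]
      have h7 : (2 + ε / 2) * (Δ / F) * ((1 - e) * ((1 / 2 - 3 * e) * F)) =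
          ((2 + ε / 2) * ((1 - e) * (1 / 2 - 3 * e))) * Δ := by field_simp
      rw [h7]
      have h8 : 1 ≤ (2 + ε / 2) * ((1 - e) * (1 / 2 - 3 * e)) := by
        have h9 : (1 - e) * (1 / 2 - 3 * e) = 1 / 2 - 7 / 2 * e + 3 * (e * e) := by ring
        have h10 : 0 ≤ e * e := by positivity
        have h11 : ε * e ≤ 1 * e := mul_le_mul_of_nonneg_right hε1 he0.le
        have h12 : 0 ≤ ε * (e * e) := by positivity
        rw [h9]
        have h13 : (2 + ε / 2) * (1 / 2 - 7 / 2 * e + 3 * (e * e)) =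
            1 + ε / 4 - 7 * e - 7 / 4 * (ε * e) + 6 * (e * e) + 3 / 2 * (ε * (e * e)) := by ring
        rw [h13]
        linarith
      have := mul_le_mul_of_nonneg_right h8 hΔ0.le
      linarith
    rw [h2]
    linarith

end Pool.Agent.R143.JM
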